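import Mathlib

set_option autoImplicit false

/-!
# MP_739a3c_co: the smallest relative term of a type B difference sequence

With `n = m + 1` coordinates, the coordinate sum of a type B sequence in smallest-integer format
divides the determinant of the `n × n` matrix formed by the `m` admissible rows and the all-ones
row.  Every admissible row is a difference of two interval vectors and interval matrices are
totally unimodular, so by multilinearity this determinant is at most `2 ^ m`.
-/

namespace Pool.Agent.Results.MP_739a3c_co.MinRelativeTerm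

open Finset Matrix

/-- The indicator vector of the block `a ≤ t < b` of coordinates (coordinates are numbered
`0, …, n - 1`). -/
def block (n a b : ℕ) : Fin n → ℤ := fun t => if a ≤ (t : ℕ) ∧ (t : ℕ) < b then 1 else 0

/-- The coefficient vector of an admissible equation (type B): it equates the sums over the blocks
`i ≤ t < j` and `k ≤ t < l`, where `i < j ≤ k < l ≤ n`. -/
def IsAdmissible (n : ℕ) (v : Fin n → ℤ) : Prop :=
  ∃ i j k l : ℕ, i < j ∧ j ≤ k ∧ k < l ∧ l ≤ n ∧ v = block n i j - block n k l

/-- `d`, with `m + 1` coordinates, is a type B sequence in smallest-integer format: its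
coordinates are positive, it solves `m` linearly independent admissible equations, and the
greatest common divisor of its coordinates is `1`. -/
def IsTypeB (m : ℕ) (d : Fin (m + 1) → ℕ) : Prop :=
  (∀ t, 0 < d t) ∧
  (∃ e : Fin m → Fin (m + 1) → ℤ, (∀ s, IsAdmissible (m + 1) (e s)) ∧
    LinearIndependent ℚ (fun (s : Fin m) (t : Fin (m + 1)) => ((e s t : ℤ) : ℚ)) ∧
    ∀ s, ∑ t, e s t * (d t : ℤ) = 0) ∧
  Finset.univ.gcd d = 1

/-- `r(d) = min d_i / ∑ d_i`. -/
noncomputable def relMin (m : ℕ) (d : Fin (m + 1) → ℕ) : ℚ :=
  ((Finset.univ.inf' Finset.univ_nonempty d : ℕ) : ℚ) / ((∑ t, d t : ℕ) : ℚ)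

/-! ### Determinants of network and interval matrices -/

/-- A square integer matrix all of whose entries are `0, 1, -1`, with at most one `1` and at most
one `-1` in every row, has determinant `0, 1` or `-1`. -/
theorem abs_det_network_le (n : ℕ) : ∀ B : Matrix (Fin n) (Fin n) ℤ,
    (∀ i c, B i c = 0 ∨ B i c = 1 ∨ B i c = -1) →
    (∀ i c c', B i c = 1 → B i c' = 1 → c = c') →
    (∀ i c c', B i c = -1 → B i c' = -1 → c = c') → |B.det| ≤ 1 := by
  induction n with
  | zero => intro B _ _ _; simp
  | succ n ih =>
    intro B h1 h2 h3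
    by_cases hall : ∀ i, (∃ c, B i c = 1) ∧ (∃ c, B i c = -1)
    · -- all row sums vanish
      have hzero : B.det = 0 := by
        rw [← Matrix.exists_mulVec_eq_zero_iff]
        refine ⟨fun _ => 1, ?_, ?_⟩
        · intro h
          have := congrFun h 0
          simp at this
        · funext i
          obtain ⟨⟨c, hc⟩, ⟨c', hc'⟩⟩ := hall i
          have hne : c ≠ c' := by
            rintro rfl
            rw [hc] at hc'
            norm_num at hc'
          simp only [Matrix.mulVec, dotProduct, mul_one, Pi.zero_apply]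
          rw [← Finset.add_sum_erase _ _ (Finset.mem_univ c), hc]
          have hc'mem : c' ∈ Finset.univ.erase c := by simp [hne.symm]
          rw [← Finset.add_sum_erase _ _ hc'mem, hc']
          rw [Finset.sum_eq_zero]
          · norm_num
          · intro x hx
            rw [Finset.mem_erase, Finset.mem_erase] at hx
            rcases h1 i x with h | h | h
            · exact h
            · exact absurd (h2 i x c h hc) hx.2.1
            · exact absurd (h3 i x c' h hc') hx.1
      rw [hzero]
      norm_num
    · push Not at hall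
      obtain ⟨i, hi⟩ := hall
      -- row `i` has at most one nonzero entry
      have hone : ∃ c0 : Fin (n + 1), ∀ c, c ≠ c0 → B i c = 0 := by
        by_cases hp : ∃ c, B i c = 1
        · obtain ⟨c0, hc0⟩ := hp
          refine ⟨c0, fun c hc => ?_⟩
          rcases h1 i c with h | h | h
          · exact h
          · exact absurd (h2 i c c0 h hc0) hc
          · exact absurd h (hi ⟨c0, hc0⟩ c)
        · by_cases hm : ∃ c, B i c = -1
          · obtain ⟨c0, hc0⟩ := hm
            refine ⟨c0, fun c hc => ?_⟩
            rcases h1 i c with h | h | h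
            · exact h
            · exact absurd ⟨c, h⟩ hp
            · exact absurd (h3 i c c0 h hc0) hc
          · refine ⟨0, fun c _ => ?_⟩
            rcases h1 i c with h | h | h
            · exact h
            · exact absurd ⟨c, h⟩ hp
            · exact absurd ⟨c, h⟩ hm
      obtain ⟨c0, hc0⟩ := hone
      rw [Matrix.det_succ_row B i, Finset.sum_eq_single c0]
      · rw [abs_mul, abs_mul, abs_pow, abs_neg, abs_one, one_pow, one_mul]
        have hsub : |(B.submatrix i.succAbove c0.succAbove).det| ≤ 1 := by
          apply ih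
          · intro a b; exact h1 _ _
          · intro a b b' hb hb'
            exact Fin.succAbove_right_injective (h2 _ _ _ hb hb')
          · intro a b b' hb hb'
            exact Fin.succAbove_right_injective (h3 _ _ _ hb hb')
        have habs : |B i c0| ≤ 1 := by
          rcases h1 i c0 with h | h | h <;> rw [h] <;> norm_num
        calc |B i c0| * |(B.submatrix i.succAbove c0.succAbove).det| ≤ 1 * 1 :=
              mul_le_mul habs hsub (abs_nonneg _) (by norm_num)
          _ = 1 := by norm_num
      · intro c _ hc
        rw [hc0 c hc]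
        ring
      · intro h
        exact absurd (Finset.mem_univ _) h

/-- The unimodular change of coordinates `row ↦ (row_c - row_{c-1})_c`. -/
def shiftMat (n : ℕ) : Matrix (Fin n) (Fin n) ℤ :=
  fun t c => if t = c then 1 else if (t : ℕ) + 1 = c then -1 else 0

theorem det_shiftMat (n : ℕ) : (shiftMat n).det = 1 := by
  rw [Matrix.det_of_isUpperTriangular]
  · simp [shiftMat]
  · intro i j hij
    have h : (j : ℕ) < (i : ℕ) := hij
    unfold shiftMat
    rw [if_neg, if_neg]
    · omega
    · intro h2
      rw [h2] at h
      omega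

theorem mul_shiftMat (n : ℕ) (A : Matrix (Fin n) (Fin n) ℤ) (i c : Fin n) :
    (A * shiftMat n) i c = A i c - (if h : 0 < (c : ℕ) then A i ⟨(c : ℕ) - 1, by omega⟩ else 0) := by
  rw [Matrix.mul_apply]
  by_cases hc : 0 < (c : ℕ)
  · rw [dif_pos hc]
    have hne : (⟨(c : ℕ) - 1, by omega⟩ : Fin n) ≠ c := by
      intro h
      have := congrArg Fin.val h
      simp only at this
      omega
    rw [← Finset.add_sum_erase _ _ (Finset.mem_univ c)]
    have hmem : (⟨(c : ℕ) - 1, by omega⟩ : Fin n) ∈ Finset.univ.erase c := by
      simp [hne]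
    rw [← Finset.add_sum_erase _ _ hmem, Finset.sum_eq_zero]
    · unfold shiftMat
      rw [if_pos rfl, if_neg hne, if_pos (by simp only; omega)]
      ring
    · intro x hx
      rw [Finset.mem_erase, Finset.mem_erase] at hx
      unfold shiftMat
      rw [if_neg hx.2.1, if_neg, mul_zero]
      intro h
      apply hx.1
      ext
      simp only
      omega
  · rw [dif_neg hc, Finset.sum_eq_single c]
    · unfold shiftMat
      rw [if_pos rfl]
      ring
    · intro x _ hx
      unfold shiftMat
      rw [if_neg hx, if_neg (by omega), mul_zero]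
    · intro h
      exact absurd (Finset.mem_univ _) h

/-- Interval matrices have determinant `0, 1` or `-1`. -/
theorem abs_det_interval_le (n : ℕ) (A : Matrix (Fin n) (Fin n) ℤ)
    (hA : ∀ i, ∃ a b : ℕ, A i = block n a b) : |A.det| ≤ 1 := by
  have hdet : A.det = (A * shiftMat n).det := by
    rw [Matrix.det_mul, det_shiftMat, mul_one]
  rw [hdet]
  have hentry : ∀ i, ∃ a b : ℕ, ∀ c : Fin n,
      ((A * shiftMat n) i c = 0 ∨ (A * shiftMat n) i c = 1 ∧ (c : ℕ) = a ∨
        (A * shiftMat n) i c = -1 ∧ (c : ℕ) = b) := by
    intro i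
    obtain ⟨a, b, hab⟩ := hA i
    refine ⟨a, b, fun c => ?_⟩
    rw [mul_shiftMat, hab]
    unfold block
    by_cases hc : 0 < (c : ℕ)
    · rw [dif_pos hc]
      simp only
      by_cases h1 : a ≤ (c : ℕ) ∧ (c : ℕ) < b
      · by_cases h2 : a ≤ (c : ℕ) - 1 ∧ (c : ℕ) - 1 < b
        · left; rw [if_pos h1, if_pos h2]; norm_num
        · right; left; rw [if_pos h1, if_neg h2]
          exact ⟨by norm_num, by omega⟩
      · by_cases h2 : a ≤ (c : ℕ) - 1 ∧ (c : ℕ) - 1 < b
        · right; right; rw [if_neg h1, if_pos h2]
          exact ⟨by norm_num, by omega⟩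
        · left; rw [if_neg h1, if_neg h2]; norm_num
    · rw [dif_neg hc]
      by_cases h1 : a ≤ (c : ℕ) ∧ (c : ℕ) < b
      · right; left; rw [if_pos h1]
        exact ⟨by norm_num, by omega⟩
      · left; rw [if_neg h1]; norm_num
  apply abs_det_network_le
  · intro i c
    obtain ⟨a, b, h⟩ := hentry i
    rcases h c with h | h | h
    · exact Or.inl h
    · exact Or.inr (Or.inl h.1)
    · exact Or.inr (Or.inr h.1)
  · intro i c c' hc hc'
    obtain ⟨a, b, h⟩ := hentry i
    have e1 : (c : ℕ) = a := by
      rcases h c with h | h | h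
      · rw [hc] at h; norm_num at h
      · exact h.2
      · rw [hc] at h; norm_num at h
    have e2 : (c' : ℕ) = a := by
      rcases h c' with h | h | h
      · rw [hc'] at h; norm_num at h
      · exact h.2
      · rw [hc'] at h; norm_num at h
    exact Fin.ext (by omega)
  · intro i c c' hc hc'
    obtain ⟨a, b, h⟩ := hentry i
    have e1 : (c : ℕ) = b := by
      rcases h c with h | h | h
      · rw [hc] at h; norm_num at h
      · rw [hc] at h; norm_num at h
      · exact h.2
    have e2 : (c' : ℕ) = b := by
      rcases h c' with h | h | h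
      · rw [hc'] at h; norm_num at h
      · rw [hc'] at h; norm_num at h
      · exact h.2
    exact Fin.ext (by omega)

/-- If the rows in `S` are differences of interval vectors and the others are interval vectors,
then the determinant is at most `2 ^ |S|` in absolute value. -/
theorem abs_det_diff_le (n : ℕ) (S : Finset (Fin n)) : ∀ w : Matrix (Fin n) (Fin n) ℤ,
    (∀ i ∉ S, ∃ a b : ℕ, w i = block n a b) →
    (∀ i ∈ S, ∃ a b a' b' : ℕ, w i = block n a b - block n a' b') → |w.det| ≤ 2 ^ S.card := by
  classical
  induction S using Finset.induction_on with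
  | empty =>
    intro w hw _
    simpa using abs_det_interval_le n w (fun i => hw i (by simp))
  | insert x S hx ih =>
    intro w hw hw'
    obtain ⟨a, b, a', b', hab⟩ := hw' x (Finset.mem_insert_self x S)
    have hupd : w = w.updateRow x (block n a b + (-1 : ℤ) • block n a' b') := by
      have : block n a b + (-1 : ℤ) • block n a' b' = w x := by
        rw [hab]
        simp [sub_eq_add_neg]
      rw [this, Matrix.updateRow_eq_self]
    have hdet : w.det = (w.updateRow x (block n a b)).det
        + (-1) * (w.updateRow x (block n a' b')).det := by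
      conv_lhs => rw [hupd]
      rw [Matrix.det_updateRow_add, Matrix.det_updateRow_smul]
    have key : ∀ p q : ℕ, |(w.updateRow x (block n p q)).det| ≤ 2 ^ S.card := by
      intro p q
      apply ih
      · intro i hi
        by_cases hix : i = x
        · subst hix
          exact ⟨p, q, by rw [Matrix.updateRow_self]⟩
        · obtain ⟨a1, b1, h⟩ := hw i (by simp [hix, hi])
          exact ⟨a1, b1, by rw [Matrix.updateRow_ne hix, h]⟩
      · intro i hi
        have hix : i ≠ x := by
          rintro rfl
          exact hx hi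
        obtain ⟨a1, b1, a2, b2, h⟩ := hw' i (Finset.mem_insert_of_mem hi)
        exact ⟨a1, b1, a2, b2, by rw [Matrix.updateRow_ne hix, h]⟩
    rw [hdet, Finset.card_insert_of_notMem hx, pow_succ]
    have h1 := key a b
    have h2 := key a' b'
    calc |(w.updateRow x (block n a b)).det + (-1) * (w.updateRow x (block n a' b')).det|
        ≤ |(w.updateRow x (block n a b)).det| + |(-1) * (w.updateRow x (block n a' b')).det| :=
          abs_add_le _ _
      _ = |(w.updateRow x (block n a b)).det| + |(w.updateRow x (block n a' b')).det| := by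
          rw [abs_mul]; norm_num
      _ ≤ 2 ^ S.card * 2 := by linarith

/-! ### The upper bound for the coordinate sum -/

theorem sum_le_two_pow (m : ℕ) (d : Fin (m + 1) → ℕ) (hd : IsTypeB m d) :
    ∑ t, d t ≤ 2 ^ m := by
  obtain ⟨hpos, ⟨e, hadm, hli, hker⟩, hgcd⟩ := hd
  obtain ⟨A, hA⟩ : ∃ A : Matrix (Fin (m + 1)) (Fin (m + 1)) ℤ, A = Fin.snoc e (fun _ => 1) :=
    ⟨_, rfl⟩
  have hAcast : ∀ s : Fin m, A s.castSucc = e s := by
    intro s; rw [hA]; exact Fin.snoc_castSucc (α := fun _ => Fin (m + 1) → ℤ) _ _ _
  have hAlast : A (Fin.last m) = fun _ => 1 := by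
    rw [hA]; exact Fin.snoc_last (α := fun _ => Fin (m + 1) → ℤ) _ _
  obtain ⟨S, hS⟩ : ∃ S : ℕ, S = ∑ t, d t := ⟨_, rfl⟩
  have hSpos : 0 < S := by
    rw [hS]
    exact Finset.sum_pos (fun t _ => hpos t) Finset.univ_nonempty
  rw [← hS]
  -- determinant bound
  have hbound : |A.det| ≤ 2 ^ m := by
    have hcard : (Finset.univ.image (Fin.castSucc : Fin m → Fin (m + 1))).card = m := by
      rw [Finset.card_image_of_injective _ (Fin.castSucc_injective m), Finset.card_univ,
        Fintype.card_fin]
    have := abs_det_diff_le (m + 1) (Finset.univ.image (Fin.castSucc : Fin m → Fin (m + 1))) A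
      (by
        intro i hi
        induction i using Fin.lastCases with
        | last =>
          refine ⟨0, m + 1, ?_⟩
          rw [hAlast]
          funext t
          unfold block
          rw [if_pos ⟨Nat.zero_le _, t.isLt⟩]
        | cast s => exact absurd (Finset.mem_image_of_mem _ (Finset.mem_univ s)) hi)
      (by
        intro i hi
        obtain ⟨s, _, rfl⟩ := Finset.mem_image.mp hi
        obtain ⟨a, b, a', b', _, _, _, _, h⟩ := hadm s
        exact ⟨a, b, a', b', by rw [hAcast, h]⟩)
    rwa [hcard] at this
  -- `A d = S e_last`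
  have hAd : ∀ u : Fin (m + 1), (A *ᵥ (fun t => (d t : ℤ))) u =
      if u = Fin.last m then (S : ℤ) else 0 := by
    intro u
    induction u using Fin.lastCases with
    | last =>
      rw [if_pos rfl]
      simp only [Matrix.mulVec, dotProduct, hAlast, one_mul]
      rw [hS]
      push_cast
      rfl
    | cast s =>
      rw [if_neg (Fin.castSucc_ne_last s)]
      simp only [Matrix.mulVec, dotProduct, hAcast]
      exact hker s
  -- nonvanishing
  have hdet0 : A.det ≠ 0 := by
    intro h0
    have h0' : (A.map (Int.castRingHom ℚ)).det = 0 := by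
      have := (RingHom.map_det (Int.castRingHom ℚ) A)
      rw [h0, map_zero] at this
      rw [RingHom.mapMatrix_apply] at this
      exact this.symm
    obtain ⟨w, hw0, hw⟩ := Matrix.exists_vecMul_eq_zero_iff.mpr h0'
    have hwt : ∀ t, ∑ u, w u * ((A u t : ℤ) : ℚ) = 0 := by
      intro t
      have := congrFun hw t
      simpa [Matrix.vecMul, dotProduct] using this
    -- apply to `d`
    have h1 : ∑ t, (∑ u, w u * ((A u t : ℤ) : ℚ)) * (d t : ℚ) = w (Fin.last m) * (S : ℚ) := by
      have hswap : ∑ t, (∑ u, w u * ((A u t : ℤ) : ℚ)) * (d t : ℚ) =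
          ∑ u, w u * ((A *ᵥ (fun t => (d t : ℤ))) u : ℤ) := by
        simp only [Matrix.mulVec, dotProduct, Finset.sum_mul]
        rw [Finset.sum_comm]
        refine Finset.sum_congr rfl (fun u _ => ?_)
        push_cast
        rw [Finset.mul_sum]
        refine Finset.sum_congr rfl (fun t _ => ?_)
        ring
      rw [hswap]
      simp only [hAd]
      rw [Finset.sum_eq_single (Fin.last m)]
      · simp
      · intro u _ hu
        simp [hu]
      · intro h
        exact absurd (Finset.mem_univ _) h
    have h2 : w (Fin.last m) * (S : ℚ) = 0 := by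
      rw [← h1]
      apply Finset.sum_eq_zero
      intro t _
      rw [hwt t, zero_mul]
    have hSne : (S : ℚ) ≠ 0 := by exact_mod_cast hSpos.ne'
    have hwlast : w (Fin.last m) = 0 := by
      rcases mul_eq_zero.mp h2 with h | h
      · exact h
      · exact absurd h hSne
    have h3 : ∑ s : Fin m, w s.castSucc • (fun t : Fin (m + 1) => ((e s t : ℤ) : ℚ)) = 0 := by
      funext t
      have := hwt t
      rw [Fin.sum_univ_castSucc, hwlast, zero_mul, add_zero] at this
      simp only [Finset.sum_apply, Pi.smul_apply, smul_eq_mul, Pi.zero_apply]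
      simpa only [hAcast] using this
    have h4 := Fintype.linearIndependent_iff.mp hli (fun s => w s.castSucc) h3
    apply hw0
    funext u
    induction u using Fin.lastCases with
    | last => exact hwlast
    | cast s => exact h4 s
  -- divisibility
  have hdvd : ∀ t, (S : ℤ) ∣ A.det * (d t : ℤ) := by
    intro t
    have h1 : A.adjugate *ᵥ (A *ᵥ (fun t => (d t : ℤ))) = A.det • (fun t => (d t : ℤ)) := by
      rw [Matrix.mulVec_mulVec, Matrix.adjugate_mul, Matrix.smul_mulVec, Matrix.one_mulVec]
    have h2 := congrFun h1 t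
    simp only [Matrix.mulVec, dotProduct, Pi.smul_apply, smul_eq_mul] at h2
    rw [← h2]
    apply Finset.dvd_sum
    intro u _
    have h3 := hAd u
    simp only [Matrix.mulVec, dotProduct] at h3
    rw [h3]
    split_ifs
    · exact Dvd.intro_left _ rfl
    · simp
  have hdvd' : S ∣ A.det.natAbs := by
    have h1 : S ∣ Finset.univ.gcd (fun t => A.det.natAbs * d t) := by
      apply Finset.dvd_gcd
      intro t _
      have := Int.natAbs_dvd_natAbs.mpr (hdvd t)
      rwa [Int.natAbs_mul, Int.natAbs_natCast, Int.natAbs_natCast] at this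
    rw [Finset.gcd_mul_left, hgcd] at h1
    simpa using h1
  have hle : S ≤ A.det.natAbs := Nat.le_of_dvd (Int.natAbs_pos.mpr hdet0) hdvd'
  have hb : (A.det.natAbs : ℤ) ≤ 2 ^ m := by
    rw [Int.natCast_natAbs]
    exact hbound
  have : (S : ℤ) ≤ 2 ^ m := le_trans (by exact_mod_cast hle) hb
  exact_mod_cast this

/-! ### Attainment by `(1, 1, 2, 4, …)` -/

/-- The sequence `1, 1, 2, 4, …, 2 ^ (m - 1)`. -/
def dbl (m : ℕ) : Fin (m + 1) → ℕ := fun t => if (t : ℕ) = 0 then 1 else 2 ^ ((t : ℕ) - 1)

theorem sum_dbl_range (k : ℕ) :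
    ∑ t ∈ Finset.range (k + 1), (if t = 0 then 1 else 2 ^ (t - 1) : ℕ) = 2 ^ k := by
  induction k with
  | zero => simp
  | succ k ih =>
    rw [Finset.sum_range_succ, ih, if_neg (by omega), Nat.add_sub_cancel, pow_succ]
    ring

theorem sum_dbl (m : ℕ) : ∑ t, dbl m t = 2 ^ m := by
  unfold dbl
  rw [Fin.sum_univ_eq_sum_range (fun t => (if t = 0 then 1 else 2 ^ (t - 1) : ℕ)) (m + 1)]
  exact sum_dbl_range m

theorem dbl_isTypeB (m : ℕ) : IsTypeB m (dbl m) := by
  refine ⟨fun t => ?_, ⟨fun s => block (m + 1) 0 (s + 1) - block (m + 1) (s + 1) (s + 2), ?_, ?_, ?_⟩,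
    ?_⟩
  · unfold dbl
    split_ifs <;> positivity
  · intro s
    exact ⟨0, s + 1, s + 1, s + 2, by omega, le_rfl, by omega, by omega, rfl⟩
  · rw [Fintype.linearIndependent_iff]
    intro g hg
    -- evaluate at coordinate `s + 1`
    have hcoord : ∀ s : Fin m, ∑ s' : Fin m, g s' *
        ((if s < s' then (1 : ℚ) else 0) - (if s = s' then (1 : ℚ) else 0)) = 0 := by
      intro s
      have h := congrFun hg s.succ
      simp only [Finset.sum_apply, Pi.smul_apply, smul_eq_mul, Pi.zero_apply] at h
      refine (Finset.sum_congr rfl (fun s' _ => ?_)).trans h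
      congr 1
      simp only [Pi.sub_apply, block, Fin.val_succ]
      have e1 : (0 ≤ (s : ℕ) + 1 ∧ (s : ℕ) + 1 < (s' : ℕ) + 1) ↔ s < s' := by
        rw [Fin.lt_def]; omega
      have e2 : ((s' : ℕ) + 1 ≤ (s : ℕ) + 1 ∧ (s : ℕ) + 1 < (s' : ℕ) + 2) ↔ s = s' := by
        rw [Fin.ext_iff]; omega
      simp only [e1, e2]
      push_cast
      rfl
    have key : ∀ k : ℕ, ∀ s : Fin m, m ≤ (s : ℕ) + k → g s = 0 := by
      intro k
      induction k with
      | zero =>
        intro s hs
        exact absurd s.isLt (by omega)
      | succ k ih =>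
        intro s hs
        have h := hcoord s
        rw [Finset.sum_eq_single s] at h
        · rw [if_neg (lt_irrefl s), if_pos rfl] at h
          linarith
        · intro s' _ hne
          by_cases hlt : s < s'
          · rw [ih s' (by rw [Fin.lt_def] at hlt; omega), zero_mul]
          · rw [if_neg hlt, if_neg (fun h => hne h.symm)]
            ring
        · intro h
          exact absurd (Finset.mem_univ _) h
    intro s
    exact key m s (by omega)
  · intro s
    have hs := s.isLt
    have h1 : ∑ t : Fin (m + 1), block (m + 1) 0 (s + 1) t * (dbl m t : ℤ) = 2 ^ (s : ℕ) := by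
      have h2 : ∑ t : Fin (m + 1), block (m + 1) 0 (s + 1) t * (dbl m t : ℤ) =
          ∑ t ∈ Finset.range (m + 1), (if t < (s : ℕ) + 1 then
            ((if t = 0 then 1 else 2 ^ (t - 1) : ℕ) : ℤ) else 0) := by
        rw [← Fin.sum_univ_eq_sum_range (fun t => (if t < (s : ℕ) + 1 then
            ((if t = 0 then 1 else 2 ^ (t - 1) : ℕ) : ℤ) else 0)) (m + 1)]
        refine Finset.sum_congr rfl (fun t _ => ?_)
        unfold block dbl
        by_cases h : (t : ℕ) < (s : ℕ) + 1
        · rw [if_pos ⟨Nat.zero_le _, h⟩, if_pos h, one_mul]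
        · rw [if_neg (fun h' => h h'.2), if_neg h, zero_mul]
      rw [h2, ← Finset.sum_filter]
      have h3 : (Finset.range (m + 1)).filter (fun t => t < (s : ℕ) + 1) =
          Finset.range ((s : ℕ) + 1) := by
        ext t
        simp only [Finset.mem_filter, Finset.mem_range]
        omega
      rw [h3, ← Nat.cast_sum, sum_dbl_range]
      push_cast
      rfl
    have h4 : ∑ t : Fin (m + 1), block (m + 1) (s + 1) (s + 2) t * (dbl m t : ℤ) =
        2 ^ (s : ℕ) := by
      rw [Finset.sum_eq_single s.succ]
      · unfold block dbl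
        rw [if_pos (by rw [Fin.val_succ]; omega), if_neg (by rw [Fin.val_succ]; omega),
          Fin.val_succ, Nat.add_sub_cancel]
        push_cast
        ring
      · intro t _ ht
        unfold block
        rw [if_neg, zero_mul]
        intro h
        apply ht
        ext
        rw [Fin.val_succ]
        omega
      · intro h
        exact absurd (Finset.mem_univ _) h
    simp only [Pi.sub_apply, sub_mul, Finset.sum_sub_distrib]
    rw [h1, h4, sub_self]
  · have h := Finset.gcd_dvd (f := dbl m) (Finset.mem_univ (0 : Fin (m + 1)))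
    have h0 : dbl m 0 = 1 := by simp [dbl]
    rw [h0] at h
    exact Nat.dvd_one.mp h

theorem relMin_dbl (m : ℕ) : relMin m (dbl m) = 1 / 2 ^ m := by
  unfold relMin
  have h1 : Finset.univ.inf' Finset.univ_nonempty (dbl m) = 1 := by
    apply le_antisymm
    · have h0 : dbl m 0 = 1 := by simp [dbl]
      calc Finset.univ.inf' Finset.univ_nonempty (dbl m) ≤ dbl m 0 :=
            Finset.inf'_le _ (Finset.mem_univ 0)
        _ = 1 := h0
    · apply Finset.le_inf'
      intro t _
      exact (dbl_isTypeB m).1 t
  rw [h1, sum_dbl]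
  push_cast
  rfl

/-- **Q1.**  For every `n = m + 1 ≥ 1`, the minimum of `r(d) = min d_i / ∑ d_i` over the `n`-term
type B sequences in smallest-integer format is exactly `1 / 2 ^ (n - 1)`. -/
theorem result (m : ℕ) :
    IsLeast {x : ℚ | ∃ d : Fin (m + 1) → ℕ, IsTypeB m d ∧ x = relMin m d} (1 / 2 ^ m) := by
  constructor
  · exact ⟨dbl m, dbl_isTypeB m, (relMin_dbl m).symm⟩
  · rintro x ⟨d, hd, rfl⟩
    have h1 := sum_le_two_pow m d hd
    have h2 : 1 ≤ Finset.univ.inf' Finset.univ_nonempty d := by
      apply Finset.le_inf'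
      intro t _
      exact hd.1 t
    have h3 : 0 < ∑ t, d t := Finset.sum_pos (fun t _ => hd.1 t) Finset.univ_nonempty
    unfold relMin
    have h3' : (0 : ℚ) < ((∑ t, d t : ℕ) : ℚ) := by exact_mod_cast h3
    have h1' : ((∑ t, d t : ℕ) : ℚ) ≤ 2 ^ m := by exact_mod_cast h1
    have h2' : (1 : ℚ) ≤ ((Finset.univ.inf' Finset.univ_nonempty d : ℕ) : ℚ) := by
      exact_mod_cast h2
    rw [div_le_div_iff₀ (by positivity) h3']
    nlinarith [show (0 : ℚ) < 2 ^ m by positivity]

end Pool.Agent.Results.MP_739a3c_co.MinRelativeTerm
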